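import Mathlib

/-! Four integers whose 2-adic tree is a comb tile the integers together with their reflection. -/

namespace Pool.Agent.H51.Mono

/-- `ℤ` has a partition into sets each of which is a translate of `A` or of `-A`. -/
def FormsMonohedralTiling (A : Finset ℤ) : Prop :=
  ∃ P : Set (Set ℤ), Setoid.IsPartition P ∧
    ∀ s ∈ P, ∃ t : ℤ, s = {n | ∃ a ∈ A, n = t + a} ∨ s = {n | ∃ a ∈ A, n = t + -a}

lemma parity_low {i j : ℕ} (h : i < j) (n k : ℤ) :
    Even ((n + 2 ^ j * k) / 2 ^ i) ↔ Even (n / 2 ^ i) := by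
  obtain ⟨d, rfl⟩ := Nat.exists_eq_add_of_lt h
  have e : n + 2 ^ (i + d + 1) * k = n + 2 ^ i * (2 * (2 ^ d * k)) := by ring
  rw [e, Int.add_mul_ediv_left _ _ (by positivity), Int.even_add]
  simp

lemma parity_same (j : ℕ) (n k : ℤ) :
    Even ((n + 2 ^ j * (2 * k + 1)) / 2 ^ j) ↔ ¬ Even (n / 2 ^ j) := by
  rw [Int.add_mul_ediv_left _ _ (by positivity), Int.even_add]
  have : ¬ Even (2 * k + 1) := by simp
  tauto

/-- The set of integers whose binary digits number `i < j < l` vanish. -/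
def Zer (i j l : ℕ) : Set ℤ := {n | Even (n / 2 ^ i) ∧ Even (n / 2 ^ j) ∧ Even (n / 2 ^ l)}

/-- Shift by an optional amount. -/
def opt (b : Bool) (x : ℤ) : ℤ := if b then x else 0

@[simp] lemma opt_true (x : ℤ) : opt true x = x := rfl
@[simp] lemma opt_false (x : ℤ) : opt false x = 0 := rfl

lemma opt_low {i j : ℕ} (h : i < j) (b : Bool) (n k : ℤ) :
    Even ((n + opt b (2 ^ j * k)) / 2 ^ i) ↔ Even (n / 2 ^ i) := by
  cases b
  · simp
  · exact parity_low h n k

lemma opt_same (j : ℕ) (b : Bool) (n k : ℤ) (hn : Even (n / 2 ^ j)) :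
    Even ((n + opt b (2 ^ j * (2 * k + 1))) / 2 ^ j) ↔ b = false := by
  cases b
  · simpa using hn
  · simp only [opt_true, parity_same]
    simp [hn]

variable {i j l : ℕ} {a b : ℤ}

/-- Uniqueness of the decomposition. -/
lemma decomp_unique (hij : i < j) (hjl : j < l) {t t' : ℤ} (ht : t ∈ Zer i j l)
    (ht' : t' ∈ Zer i j l) {x y z x' y' z' : Bool}
    (h : t + opt x (2 ^ i * (2 * a + 1)) + opt y (2 ^ j * (2 * b + 1)) + opt z (2 ^ l * (2 * 0 + 1)) =
      t' + opt x' (2 ^ i * (2 * a + 1)) + opt y' (2 ^ j * (2 * b + 1)) +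
        opt z' (2 ^ l * (2 * 0 + 1))) : t = t' ∧ x = x' ∧ y = y' ∧ z = z' := by
  have hx : ∀ {t : ℤ} {x y z : Bool}, t ∈ Zer i j l →
      (Even ((t + opt x (2 ^ i * (2 * a + 1)) + opt y (2 ^ j * (2 * b + 1)) +
        opt z (2 ^ l * (2 * 0 + 1))) / 2 ^ i) ↔ x = false) := by
    intro t x y z ht
    rw [opt_low (hij.trans hjl), opt_low hij, opt_same _ _ _ _ ht.1]
  have hy : ∀ {t : ℤ} {y z : Bool}, t ∈ Zer i j l →
      (Even ((t + opt y (2 ^ j * (2 * b + 1)) + opt z (2 ^ l * (2 * 0 + 1))) / 2 ^ j) ↔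
        y = false) := by
    intro t y z ht
    rw [opt_low hjl, opt_same _ _ _ _ ht.2.1]
  have hz : ∀ {t : ℤ} {z : Bool}, t ∈ Zer i j l →
      (Even ((t + opt z (2 ^ l * (2 * 0 + 1))) / 2 ^ l) ↔ z = false) := by
    intro t z ht
    rw [opt_same _ _ _ _ ht.2.2]
  have e1 : x = x' := by
    have h1 := hx (x := x) (y := y) (z := z) ht
    rw [h, hx ht'] at h1
    cases x <;> cases x' <;> simp_all
  subst e1
  have h2 : t + opt y (2 ^ j * (2 * b + 1)) + opt z (2 ^ l * (2 * 0 + 1)) =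
      t' + opt y' (2 ^ j * (2 * b + 1)) + opt z' (2 ^ l * (2 * 0 + 1)) := by linarith
  have e2 : y = y' := by
    have h1 := hy (y := y) (z := z) ht
    rw [h2, hy ht'] at h1
    cases y <;> cases y' <;> simp_all
  subst e2
  have h3 : t + opt z (2 ^ l * (2 * 0 + 1)) = t' + opt z' (2 ^ l * (2 * 0 + 1)) := by linarith
  have e3 : z = z' := by
    have h1 := hz (z := z) ht
    rw [h3, hz ht'] at h1
    cases z <;> cases z' <;> simp_all
  subst e3
  exact ⟨by linarith, rfl, rfl, rfl⟩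

/-- Existence of the decomposition. -/
lemma decomp_exists (hij : i < j) (hjl : j < l) (a b n : ℤ) : ∃ t ∈ Zer i j l, ∃ x y z : Bool,
    n = t + opt x (2 ^ i * (2 * a + 1)) + opt y (2 ^ j * (2 * b + 1)) +
      opt z (2 ^ l * (2 * 0 + 1)) := by
  have step : ∀ (m : ℕ) (c n : ℤ), ∃ x : Bool, Even ((n - opt x (2 ^ m * (2 * c + 1))) / 2 ^ m) := by
    intro m c n
    by_cases h : Even (n / 2 ^ m)
    · exact ⟨false, by simpa using h⟩
    · refine ⟨true, ?_⟩
      have := parity_same m (n - 2 ^ m * (2 * c + 1)) c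
      rw [sub_add_cancel] at this
      simp only [opt_true]
      by_contra h'
      exact h (this.2 h')
  obtain ⟨x, hx⟩ := step i a n
  set n1 := n - opt x (2 ^ i * (2 * a + 1)) with hn1
  obtain ⟨y, hy⟩ := step j b n1
  set n2 := n1 - opt y (2 ^ j * (2 * b + 1)) with hn2
  obtain ⟨z, hz⟩ := step l 0 n2
  set n3 := n2 - opt z (2 ^ l * (2 * 0 + 1)) with hn3
  refine ⟨n3, ⟨?_, ?_, hz⟩, x, y, z, by rw [hn3, hn2, hn1]; ring⟩
  · have h1 := opt_low (hij.trans hjl) z n3 (2 * 0 + 1)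
    have h2 := opt_low hij y n2 (2 * b + 1)
    have e1 : n3 + opt z (2 ^ l * (2 * 0 + 1)) = n2 := by rw [hn3]; ring
    have e2 : n2 + opt y (2 ^ j * (2 * b + 1)) = n1 := by rw [hn2]; ring
    rw [e1] at h1
    rw [e2] at h2
    exact h1.1 (h2.1 hx)
  · have h1 := opt_low hjl z n3 (2 * 0 + 1)
    have e1 : n3 + opt z (2 ^ l * (2 * 0 + 1)) = n2 := by rw [hn3]; ring
    rw [e1] at h1
    exact h1.1 hy

lemma zer_shift (hij : i < j) (hjl : j < l) {t : ℤ} (ht : t ∈ Zer i j l) (k : ℤ) :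
    t + 2 ^ (l + 1) * k ∈ Zer i j l :=
  ⟨(parity_low (by omega) _ _).2 ht.1, (parity_low (by omega) _ _).2 ht.2.1,
    (parity_low (by omega) _ _).2 ht.2.2⟩

/-- The direct pieces. -/
def posPiece (A : Finset ℤ) (q t : ℤ) : Set ℤ := {n | ∃ x ∈ A, n = (t - q) + x}

/-- The reflected pieces. -/
def negPiece (A : Finset ℤ) (q s t : ℤ) : Set ℤ := {n | ∃ x ∈ A, n = (t + q + s) + -x}

/-- The four point sets with a comb as their 2-adic tree tile with reflections. -/
theorem comb_tiles (hij : i < j) (hjl : j < l) (a b c q : ℤ) :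
    FormsMonohedralTiling {q + 2 ^ i * (2 * a + 1), q + 2 ^ j * (2 * b + 1), q,
      q + 2 ^ l * (2 * c + 1)} := by
  set α : ℤ := 2 ^ i * (2 * a + 1) with hα
  set β : ℤ := 2 ^ j * (2 * b + 1) with hβ
  set γ : ℤ := 2 ^ l * (2 * 0 + 1) with hγ
  have hγ' : (2 : ℤ) ^ l * (2 * c + 1) = 2 ^ (l + 1) * c + γ := by rw [hγ]; ring
  rw [hγ']
  set κ : ℤ := 2 ^ (l + 1) * c with hκ
  set A : Finset ℤ := {q + α, q + β, q, q + (κ + γ)} with hA
  have hmem : ∀ x, x ∈ A ↔ x = q + α ∨ x = q + β ∨ x = q ∨ x = q + (κ + γ) := by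
    intro x; simp [hA]
  set s : ℤ := α + β + γ with hs
  have hsh : ∀ {t : ℤ}, t ∈ Zer i j l → t + κ ∈ Zer i j l := fun ht => zer_shift hij hjl ht c
  have hsh' : ∀ {t : ℤ}, t ∈ Zer i j l → t - κ ∈ Zer i j l := fun ht => by
    have := zer_shift hij hjl ht (-c)
    rwa [mul_neg, ← sub_eq_add_neg] at this
  let F : ℤ → Bool → Bool → Bool → Set ℤ := fun t x y z =>
    match x, y, z with
    | false, false, false => posPiece A q t
    | false, false, true => posPiece A q (t - κ)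
    | false, true, false => posPiece A q t
    | true, false, false => posPiece A q t
    | true, true, true => negPiece A q s t
    | true, true, false => negPiece A q s (t + κ)
    | true, false, true => negPiece A q s t
    | false, true, true => negPiece A q s t
  have hF1 : ∀ t x y z, t + opt x α + opt y β + opt z γ ∈ F t x y z := by
    intro t x y z
    cases x <;> cases y <;> cases z
    · exact ⟨q, by simp [hmem], by simp only [opt_true, opt_false]; ring⟩
    · exact ⟨q + (κ + γ), by simp [hmem], by simp only [opt_true, opt_false]; ring⟩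
    · exact ⟨q + β, by simp [hmem], by simp only [opt_true, opt_false]; ring⟩
    · exact ⟨q + α, by simp [hmem], by simp only [opt_true, opt_false, hs]; ring⟩
    · exact ⟨q + α, by simp [hmem], by simp only [opt_true, opt_false]; ring⟩
    · exact ⟨q + β, by simp [hmem], by simp only [opt_true, opt_false, hs]; ring⟩
    · exact ⟨q + (κ + γ), by simp [hmem], by simp only [opt_true, opt_false, hs]; ring⟩
    · exact ⟨q, by simp [hmem], by simp only [opt_true, opt_false, hs]; ring⟩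
  refine ⟨{S | ∃ t ∈ Zer i j l, S = posPiece A q t ∨ S = negPiece A q s t}, ⟨?_, ?_⟩, ?_⟩
  · rintro ⟨t, -, h | h⟩
    · have : t ∈ posPiece A q t := ⟨q, by simp [hmem], by ring⟩
      rw [← h] at this
      exact this
    · have : t + s ∈ negPiece A q s t := ⟨q, by simp [hmem], by ring⟩
      rw [← h] at this
      exact this
  · intro n
    have key : ∀ S, (∃ t ∈ Zer i j l, S = posPiece A q t ∨ S = negPiece A q s t) → n ∈ S →
        ∃ t ∈ Zer i j l, ∃ x y z : Bool, n = t + opt x α + opt y β + opt z γ ∧ S = F t x y z := by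
      rintro S ⟨t, ht, rfl | rfl⟩ ⟨x, hx, hn⟩
      · rw [hmem] at hx
        rcases hx with rfl | rfl | rfl | rfl
        · exact ⟨t, ht, true, false, false, by rw [hn]; simp only [opt_true, opt_false]; ring, rfl⟩
        · exact ⟨t, ht, false, true, false, by rw [hn]; simp only [opt_true, opt_false]; ring, rfl⟩
        · exact ⟨t, ht, false, false, false, by rw [hn]; simp only [opt_true, opt_false]; ring, rfl⟩
        · exact ⟨t + κ, hsh ht, false, false, true, by rw [hn]; simp only [opt_true, opt_false]; ring, by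
            change _ = posPiece A q (t + κ - κ)
            rw [add_sub_cancel_right]⟩
      · rw [hmem] at hx
        rcases hx with rfl | rfl | rfl | rfl
        · exact ⟨t, ht, false, true, true, by rw [hn]; simp only [opt_true, opt_false, hs]; ring, rfl⟩
        · exact ⟨t, ht, true, false, true, by rw [hn]; simp only [opt_true, opt_false, hs]; ring, rfl⟩
        · exact ⟨t, ht, true, true, true, by rw [hn]; simp only [opt_true, opt_false, hs]; ring, rfl⟩
        · exact ⟨t - κ, hsh' ht, true, true, false, by rw [hn]; simp only [opt_true, opt_false, hs]; ring, by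
            change _ = negPiece A q s (t - κ + κ)
            rw [sub_add_cancel]⟩
    obtain ⟨t, ht, x, y, z, hn⟩ := decomp_exists hij hjl a b n
    refine ⟨F t x y z, ⟨?_, ?_⟩, ?_⟩
    · cases x <;> cases y <;> cases z
      · exact ⟨t, ht, Or.inl rfl⟩
      · exact ⟨t - κ, hsh' ht, Or.inl rfl⟩
      · exact ⟨t, ht, Or.inl rfl⟩
      · exact ⟨t, ht, Or.inr rfl⟩
      · exact ⟨t, ht, Or.inl rfl⟩
      · exact ⟨t, ht, Or.inr rfl⟩
      · exact ⟨t + κ, hsh ht, Or.inr rfl⟩
      · exact ⟨t, ht, Or.inr rfl⟩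
    · rw [hn]
      exact hF1 t x y z
    · rintro S ⟨hS, hnS⟩
      obtain ⟨t', ht', x', y', z', hn', rfl⟩ := key S hS hnS
      obtain ⟨rfl, rfl, rfl, rfl⟩ := decomp_unique hij hjl ht' ht (hn'.symm.trans hn)
      rfl
  · rintro S ⟨t, -, h | h⟩
    · exact ⟨t - q, Or.inl h⟩
    · exact ⟨t + q + s, Or.inr h⟩

/-- A nonzero integer is a power of two times an odd number. -/
lemma exists_val {n : ℤ} (hn : n ≠ 0) : ∃ (w : ℕ) (c : ℤ), n = 2 ^ w * (2 * c + 1) := by
  obtain ⟨m, hm, hnm⟩ := (Int.finiteMultiplicity_iff.2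
    (⟨by norm_num, hn⟩ : (2 : ℤ).natAbs ≠ 1 ∧ n ≠ 0)).exists_eq_pow_mul_and_not_dvd
  have hodd : Odd m := by
    rw [← Int.not_even_iff_odd, even_iff_two_dvd]
    exact hnm
  obtain ⟨c, hc⟩ := hodd
  exact ⟨_, c, by rw [← hc]; exact hm⟩

lemma val_unique {w w' : ℕ} {c c' : ℤ} (h : (2 : ℤ) ^ w * (2 * c + 1) = 2 ^ w' * (2 * c' + 1)) :
    w = w' := by
  have key : ∀ {w w' : ℕ} {c c' : ℤ}, (2 : ℤ) ^ w * (2 * c + 1) = 2 ^ w' * (2 * c' + 1) →
      ¬ w < w' := by
    intro w w' c c' h hlt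
    obtain ⟨d, rfl⟩ := Nat.exists_eq_add_of_lt hlt
    have h2 : (2 : ℤ) ^ w ≠ 0 := by positivity
    have h3 : (2 * c + 1 : ℤ) = 2 * (2 ^ d * (2 * c' + 1)) := by
      apply mul_left_cancel₀ h2
      rw [h]; ring
    omega
  rcases lt_trichotomy w w' with h1 | h1 | h1
  · exact absurd h1 (key h)
  · exact h1
  · exact absurd h1 (key h.symm)

/-- Among three distinct integers, two differ by a multiple of a strictly higher power of two
than the third differs from them. -/
lemma three_split {x y z : ℤ} (hxy : x ≠ y) (hyz : y ≠ z) (hxz : x ≠ z) :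
    ∃ (p q r : ℤ) (j l : ℕ) (b c : ℤ), ({x, y, z} : Finset ℤ) = {p, q, r} ∧ j < l ∧
      p = q + 2 ^ j * (2 * b + 1) ∧ r = q + 2 ^ l * (2 * c + 1) := by
  obtain ⟨u, a, hu⟩ := exists_val (sub_ne_zero.2 hxy)
  obtain ⟨v, b, hv⟩ := exists_val (sub_ne_zero.2 hyz)
  rcases lt_trichotomy u v with h | h | h
  · refine ⟨x, y, z, u, v, a, -b - 1, rfl, h, by linarith, ?_⟩
    have : (2 : ℤ) ^ v * (2 * (-b - 1) + 1) = -(2 ^ v * (2 * b + 1)) := by ring
    rw [this]; linarith
  · subst h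
    have hne : a + b + 1 ≠ 0 := by
      intro h0
      apply hxz
      have : x - z = 2 ^ u * (2 * (a + b + 1)) := by linarith
      rw [h0] at this
      simp at this
      linarith
    obtain ⟨w, d, hw⟩ := exists_val hne
    have hxz' : x - z = 2 ^ (u + 1 + w) * (2 * d + 1) := by
      have : x - z = 2 ^ (u + 1) * (a + b + 1) := by
        rw [pow_succ]; linarith
      rw [this, hw]; ring
    refine ⟨y, z, x, u, u + 1 + w, b, d, ?_, by omega, by linarith, by linarith⟩
    ext t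
    simp only [Finset.mem_insert, Finset.mem_singleton]
    tauto
  · refine ⟨z, y, x, v, u, -b - 1, a, ?_, h, ?_, by linarith⟩
    · ext t
      simp only [Finset.mem_insert, Finset.mem_singleton]
      tauto
    · have : (2 : ℤ) ^ v * (2 * (-b - 1) + 1) = -(2 ^ v * (2 * b + 1)) := by ring
      rw [this]; linarith

lemma odd_of_not_dvd {v : ℕ} {n : ℤ} (h1 : (2 : ℤ) ^ v ∣ n) (h2 : ¬ (2 : ℤ) ^ (v + 1) ∣ n) :
    ∃ a, n = 2 ^ v * (2 * a + 1) := by
  obtain ⟨m, rfl⟩ := h1
  have hodd : Odd m := by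
    rw [← Int.not_even_iff_odd]
    rintro ⟨k, rfl⟩
    exact h2 ⟨k, by ring⟩
  obtain ⟨a, rfl⟩ := hodd
  exact ⟨a, rfl⟩

lemma lt_of_dvd {v j : ℕ} {b : ℤ} (h : (2 : ℤ) ^ (v + 1) ∣ 2 ^ j * (2 * b + 1)) : v < j := by
  by_contra hlt
  push Not at hlt
  obtain ⟨d, rfl⟩ := Nat.exists_eq_add_of_le hlt
  obtain ⟨m, hm⟩ := h
  have h2 : (2 : ℤ) ^ j ≠ 0 := by positivity
  have h3 : (2 * b + 1 : ℤ) = 2 * (2 ^ d * m) := by
    apply mul_left_cancel₀ h2
    rw [hm]; ring
  omega

/-- One point in one class modulo `2 ^ (v + 1)` and three in the other. -/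
lemma tiles_of_one_three {v : ℕ} {z x y w : ℤ} (hxy : x ≠ y) (hyw : y ≠ w) (hxw : x ≠ w)
    (hz : ∀ t ∈ ({x, y, w} : Finset ℤ), (2 : ℤ) ^ v ∣ z - t ∧ ¬ (2 : ℤ) ^ (v + 1) ∣ z - t)
    (h3 : ∀ t ∈ ({x, y, w} : Finset ℤ), ∀ t' ∈ ({x, y, w} : Finset ℤ),
      (2 : ℤ) ^ (v + 1) ∣ t - t') : FormsMonohedralTiling {z, x, y, w} := by
  obtain ⟨p, q, r, j, l, b, c, he, hjl, hp, hr⟩ := three_split hxy hyw hxw
  rw [he] at hz h3
  have hvj : v < j := by
    apply lt_of_dvd (b := b)
    have := h3 p (by simp) q (by simp)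
    rwa [hp, add_sub_cancel_left] at this
  obtain ⟨a, ha⟩ := odd_of_not_dvd (hz q (by simp)).1 (hz q (by simp)).2
  have hz' : z = q + 2 ^ v * (2 * a + 1) := by linarith
  have := comb_tiles hvj hjl a b c q
  rw [← hp, ← hr, ← hz'] at this
  rw [he]
  exact this

theorem tiles_of_odd_split (A : Finset ℤ) (hA : A.card = 4) (v : ℕ)
    (hv : ∀ a ∈ A, ∀ b ∈ A, (2 : ℤ) ^ v ∣ a - b) (r : ℤ)
    (hr : Odd (A.filter (fun a => (2 : ℤ) ^ (v + 1) ∣ a - r)).card) :
    FormsMonohedralTiling A := by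
  classical
  have hsum := Finset.card_filter_add_card_filter_not (s := A)
    (fun a => (2 : ℤ) ^ (v + 1) ∣ a - r)
  rw [hA] at hsum
  set F := A.filter (fun a => (2 : ℤ) ^ (v + 1) ∣ a - r) with hF
  set F' := A.filter (fun a => ¬ (2 : ℤ) ^ (v + 1) ∣ a - r) with hF'
  have hun : F ∪ F' = A := Finset.filter_union_filter_not_eq _ A
  have hmF : ∀ x ∈ F, x ∈ A ∧ (2 : ℤ) ^ (v + 1) ∣ x - r := fun x hx => by
    rwa [hF, Finset.mem_filter] at hx
  have hmF' : ∀ x ∈ F', x ∈ A ∧ ¬ (2 : ℤ) ^ (v + 1) ∣ x - r := fun x hx => by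
    rwa [hF', Finset.mem_filter] at hx
  have hcross : ∀ x ∈ F, ∀ y ∈ F', ¬ (2 : ℤ) ^ (v + 1) ∣ x - y := by
    intro x hx y hy h
    apply (hmF' y hy).2
    have := dvd_sub (hmF x hx).2 h
    have e : x - r - (x - y) = y - r := by ring
    rwa [e] at this
  have hcross' : ∀ x ∈ F', ∀ y ∈ F, ¬ (2 : ℤ) ^ (v + 1) ∣ x - y := by
    intro x hx y hy h
    apply hcross y hy x hx
    rw [← neg_sub]
    exact (dvd_neg).2 h
  obtain ⟨k, hk⟩ := hr
  have hk' : F.card = 1 ∨ F.card = 3 := by omega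
  rcases hk' with h1 | h3
  · have h3 : F'.card = 3 := by omega
    obtain ⟨z, hz⟩ := Finset.card_eq_one.1 h1
    obtain ⟨x, y, w, hxy, hxw, hyw, hxyw⟩ := Finset.card_eq_three.1 h3
    have hzF : z ∈ F := by rw [hz]; simp
    have hAeq : A = {z, x, y, w} := by
      rw [← hun, hz, hxyw]; rfl
    rw [hAeq]
    apply tiles_of_one_three (v := v) hxy hyw hxw
    · intro t ht
      rw [← hxyw] at ht
      exact ⟨hv z (hmF z hzF).1 t (hmF' t ht).1, hcross z hzF t ht⟩
    · intro t ht t' ht'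
      rw [← hxyw] at ht ht'
      obtain ⟨a, ha⟩ := odd_of_not_dvd (hv z (hmF z hzF).1 t (hmF' t ht).1) (hcross z hzF t ht)
      obtain ⟨b, hb⟩ := odd_of_not_dvd (hv z (hmF z hzF).1 t' (hmF' t' ht').1) (hcross z hzF t' ht')
      refine ⟨b - a, ?_⟩
      have : t - t' = (z - t') - (z - t) := by ring
      rw [this, ha, hb]; ring
  · have h1 : F'.card = 1 := by omega
    obtain ⟨z, hz⟩ := Finset.card_eq_one.1 h1
    obtain ⟨x, y, w, hxy, hxw, hyw, hxyw⟩ := Finset.card_eq_three.1 h3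
    have hzF : z ∈ F' := by rw [hz]; simp
    have hAeq : A = {z, x, y, w} := by
      rw [← hun, hz, hxyw, Finset.union_comm]; rfl
    rw [hAeq]
    apply tiles_of_one_three (v := v) hxy hyw hxw
    · intro t ht
      rw [← hxyw] at ht
      exact ⟨hv z (hmF' z hzF).1 t (hmF t ht).1, hcross' z hzF t ht⟩
    · intro t ht t' ht'
      rw [← hxyw] at ht ht'
      have := dvd_sub (hmF t ht).2 (hmF t' ht').2
      have e : t - r - (t' - r) = t - t' := by ring
      rwa [e] at this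

end Pool.Agent.H51.Mono
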